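import Pool.Agent.H632.LTD4

set_option autoImplicit false

open MeasureTheory Real

namespace Pool.Agent.Results.MP_4c716f_mp.AllDimensions

/-- The partial derivative `∂_k φ` of a function on `ℝ^d`. -/
noncomputable def pder {d : ℕ} (k : Fin d) (φ : (Fin d → ℝ) → ℝ) (x : Fin d → ℝ) : ℝ :=
  fderiv ℝ φ x (Pi.single k 1)

/-- `u` belongs to the Sobolev space `H¹(ℝ^d; ℂ)` and has the weak partial derivatives `g k`:
`u` and all `g k` are in `L²(ℝ^d)`, and `∫ u ∂_k φ = - ∫ g_k φ` for every real test function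
`φ ∈ C_c^∞(ℝ^d)`. -/
structure IsSobolev {d : ℕ} (u : (Fin d → ℝ) → ℂ) (g : Fin d → (Fin d → ℝ) → ℂ) : Prop where
  memLp : MemLp u 2 volume
  memLp_deriv : ∀ k, MemLp (g k) 2 volume
  weak : ∀ k (φ : (Fin d → ℝ) → ℝ), ContDiff ℝ (⊤ : ℕ∞) φ → HasCompactSupport φ →
    ∫ x, u x * (pder k φ x : ℂ) = - ∫ x, g k x * (φ x : ℂ)

/-- `u 0, …, u n` are functions in `H¹(ℝ^d; ℂ)` with weak gradients `g 0, …, g n`, orthonormal
in `L²(ℝ^d; ℂ)`. -/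
def Trial {d n : ℕ} (u : Fin (n + 1) → (Fin d → ℝ) → ℂ)
    (g : Fin (n + 1) → Fin d → (Fin d → ℝ) → ℂ) : Prop :=
  (∀ i, IsSobolev (u i) (g i)) ∧
    ∀ i j, ∫ x, (starRingEnd ℂ) (u i x) * u j x = if i = j then 1 else 0

/-- The `(n + 1)`-th min-max value of `-Δ + V` on `L²(ℝ^d; ℂ)`: the infimum of the real numbers
`lam` such that on some `(n + 1)`-dimensional space of functions in `H¹`, given by an orthonormal
basis `u 0, …, u n`, the form is at most `lam` times the square of the norm, that is,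
`∫ |∇v|² + ∫ V |v|² ≤ lam ∑ |c_i|²` for all `v = ∑ c_i u_i`. -/
noncomputable def minMax {d : ℕ} (V : (Fin d → ℝ) → ℝ) (n : ℕ) : ℝ :=
  sInf {lam : ℝ | ∃ (u : Fin (n + 1) → (Fin d → ℝ) → ℂ)
    (g : Fin (n + 1) → Fin d → (Fin d → ℝ) → ℂ), Trial u g ∧
    ∀ c : Fin (n + 1) → ℂ, (∫ x, ∑ k, ‖∑ i, c i * g i k x‖ ^ 2) +
      ∫ x, V x * ‖∑ i, c i * u i x‖ ^ 2 ≤ lam * ∑ i, ‖c i‖ ^ 2}

/-- The semiclassical constant `L^cl_{γ,d}`. -/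
noncomputable def Lcl (γ : ℝ) (d : ℕ) : ℝ :=
  Gamma (γ + 1) / ((4 * π) ^ ((d:ℝ) / 2) * Gamma (γ + 1 + d / 2))

/-- The constants which are valid in the Lieb-Thirring inequality for the pair `(γ, d)`. -/
def Valid (γ : ℝ) (d : ℕ) : Set ℝ :=
  {L : ℝ | ∀ V : (Fin d → ℝ) → ℝ, MemLp V (ENNReal.ofReal (γ + (d:ℝ) / 2)) → ∀ N : ℕ,
    ∑ n ∈ Finset.range N, (max (-minMax V n) 0) ^ γ ≤
      L * ∫ x, (max (-V x) 0) ^ (γ + (d:ℝ) / 2)}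

/-- `L_{γ,d} ≤ (2/√3) L^cl_{γ,d}` for all `γ ≥ 1` and all `d ≥ 1`, and
`L_{1,1} = (2/√3) L^cl_{1,1} = 4/(3√3π)` exactly. -/
theorem result :
    (∀ (d : ℕ) (γ : ℝ), 1 ≤ d → 1 ≤ γ → 2 / √3 * Lcl γ d ∈ Valid γ d) ∧
    IsLeast (Valid 1 1) (2 / √3 * Lcl 1 1) ∧ 2 / √3 * Lcl 1 1 = 4 / (3 * √3 * π) := by
  have hS : ∀ {d : ℕ} {u : (Fin d → ℝ) → ℂ} {g : Fin d → (Fin d → ℝ) → ℂ},
      IsSobolev u g ↔ LTd.WGradC u g := fun {d u g} =>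
    ⟨fun h => ⟨h.1, h.2, h.3⟩, fun h => ⟨h.1, h.2, h.3⟩⟩
  have hM : ∀ {d : ℕ} (V : (Fin d → ℝ) → ℝ) (n : ℕ),
      minMax V n = Pool.H632.LTD.minMax V n := by
    intro d V n
    rw [← Pool.H632.LTD.mm_eq]
    unfold minMax Pool.H632.LTD.mm Trial
    simp only [hS, and_assoc]
  have hc : ∀ γ d, Lcl γ d = Pool.H632.LTD.Lcl γ d := fun _ _ => rfl
  have hall : ∀ (d : ℕ) (γ : ℝ), 1 ≤ d → 1 ≤ γ → 2 / √3 * Lcl γ d ∈ Valid γ d := by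
    intro d γ hd hγ V hV N
    simp only [hM]
    exact Pool.H632.LTD.AL_bound hd hγ V hV N
  refine ⟨hall, ⟨hall 1 1 le_rfl le_rfl, ?_⟩, Pool.H632.LTD.const_one⟩
  intro L hL
  have h1 := hL Pool.H632.LTD.V1 Pool.H632.LTD.V1_memLp 1
  simp only [hM] at h1
  rw [Finset.sum_range_one, Real.rpow_one, Pool.H632.LTD.V1_integral] at h1
  have h2 : 1 / 4 ≤ max (-Pool.H632.LTD.minMax Pool.H632.LTD.V1 0) 0 :=
    le_trans (by linarith [Pool.H632.LTD.minMax_V1]) (le_max_left _ _)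
  exact Pool.H632.LTD.lower_one L (h2.trans h1)

end Pool.Agent.Results.MP_4c716f_mp.AllDimensions
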