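import Pool.Agent.Helper490.LTEig

set_option autoImplicit false

open MeasureTheory Set Real

namespace Pool.Agent.Results.MP_4c716f_mp.GammaOneDimOne

open Pool.Helper490.Eig Pool.Helper490.Sech

/-- The extremal potential. -/
noncomputable def V0 (x : ℝ) : ℝ := -(3 / 4) * (cosh x)⁻¹ ^ 2

lemma V0_cont : Continuous V0 :=
  continuous_const.mul ((continuous_cosh.inv₀ fun x => (cosh_pos x).ne').pow 2)

lemma V0_abs (x : ℝ) : |V0 x| = 3 / 4 * (cosh x)⁻¹ ^ 2 := by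
  rw [V0, abs_mul, abs_neg, abs_of_pos (by norm_num : (0:ℝ) < 3 / 4), abs_of_nonneg (sq_nonneg _)]

lemma V0_rpow (x : ℝ) :
    (3 / 4 * (cosh x)⁻¹ ^ 2 : ℝ) ^ ((3:ℝ) / 2) = 3 * √3 / 8 * (cosh x)⁻¹ ^ 3 := by
  have h1 : 0 < (cosh x)⁻¹ := inv_pos.2 (cosh_pos x)
  have h3 : √3 ^ 2 = 3 := Real.sq_sqrt (by norm_num)
  have h30 : 0 < √3 := Real.sqrt_pos.2 (by norm_num)
  have e1 : (3 / 4 * (cosh x)⁻¹ ^ 2 : ℝ) = (√3 / 2 * (cosh x)⁻¹) ^ 2 := by
    rw [mul_pow, div_pow, h3]; norm_num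
  have h4 : 0 ≤ √3 / 2 * (cosh x)⁻¹ := by positivity
  rw [e1, ← Real.rpow_natCast, ← Real.rpow_mul h4]
  norm_num
  have e2 : (√3 / 2 * (cosh x)⁻¹) ^ 3 = √3 ^ 2 * √3 / 8 * (cosh x)⁻¹ ^ 3 := by ring
  rw [e2, h3]
  ring

lemma V0_memLp : MemLp V0 (3 / 2) := by
  have h3 : ((3:ENNReal) / 2).toReal = 3 / 2 := by
    rw [ENNReal.toReal_div]; simp
  rw [← integrable_norm_rpow_iff V0_cont.aestronglyMeasurable (by norm_num)
    (ENNReal.div_ne_top (by simp) (by simp)), h3]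
  simp only [Real.norm_eq_abs, V0_abs, V0_rpow]
  exact int_sech3.const_mul _

lemma V0_integral : ∫ x, (max (-V0 x) 0) ^ ((3:ℝ) / 2) = 3 * √3 * π / 16 := by
  have h1 : ∀ x, max (-V0 x) 0 = 3 / 4 * (cosh x)⁻¹ ^ 2 := by
    intro x
    have h2 : 0 ≤ 3 / 4 * (cosh x)⁻¹ ^ 2 := by positivity
    have h3 : -V0 x = 3 / 4 * (cosh x)⁻¹ ^ 2 := by rw [V0]; ring
    rw [h3, max_eq_left h2]
  simp only [h1, V0_rpow]
  rw [integral_const_mul, integral_sech3]
  ring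

/-- The ground state, as a complex function. -/
noncomputable def W (x : ℝ) : ℂ := (w x : ℂ)

/-- Its derivative. -/
noncomputable def W' (x : ℝ) : ℂ := (w' x : ℂ)

lemma norm_W (x : ℝ) : ‖W x‖ ^ 2 = w x ^ 2 := by
  rw [W, Complex.norm_real, Real.norm_eq_abs, sq_abs]

lemma norm_W' (x : ℝ) : ‖W' x‖ ^ 2 = w' x ^ 2 := by
  rw [W', Complex.norm_real, Real.norm_eq_abs, sq_abs]

lemma W_sobolev : IsSobolev W W' := by
  have hc1 : Continuous W := Complex.continuous_ofReal.comp w_cont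
  have hc2 : Continuous W' := Complex.continuous_ofReal.comp w'_cont
  refine ⟨?_, ?_, ?_⟩
  · rw [memLp_two_iff_integrable_sq_norm hc1.aestronglyMeasurable]
    simp only [norm_W]
    exact int_w_sq
  · rw [memLp_two_iff_integrable_sq_norm hc2.aestronglyMeasurable]
    simp only [norm_W']
    exact int_w'_sq
  · intro a b
    rw [intervalIntegral.integral_eq_sub_of_hasDerivAt (f := W)]
    · intro x _
      exact (w_deriv x).ofReal_comp
    · exact hc2.intervalIntegrable _ _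

lemma W_form : (∫ x, ‖W' x‖ ^ 2) + ∫ x, V0 x * ‖W x‖ ^ 2 = -(1 / 4) * ∫ x, ‖W x‖ ^ 2 := by
  simp only [norm_W, norm_W']
  rw [integral_w'_sq, integral_w_sq]
  have h1 : ∀ x, V0 x * w x ^ 2 = -(3 / 4) * (cosh x)⁻¹ ^ 3 := by
    intro x
    rw [V0, w_sq]; ring
  simp only [h1]
  rw [integral_const_mul, integral_sech3]
  ring

lemma minMax_V0 : minMax V0 0 ≤ -(1 / 4) := by
  have hbdd : BddBelow {lam : ℝ | ∃ W : Submodule ℂ (ℝ → ℂ), Module.finrank ℂ W = 0 + 1 ∧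
      ∀ u ∈ W, ∃ g, IsSobolev u g ∧
      (∫ x, ‖g x‖ ^ 2) + ∫ x, V0 x * ‖u x‖ ^ 2 ≤ lam * ∫ x, ‖u x‖ ^ 2} := by
    refine ⟨-(3 / 4), ?_⟩
    rintro lam ⟨X, hX, hX2⟩
    have hne : X ≠ ⊥ := by
      intro h
      rw [h, finrank_bot] at hX
      omega
    obtain ⟨u, huX, hu0⟩ := (Submodule.ne_bot_iff _).1 hne
    obtain ⟨g, hg, hq⟩ := hX2 u huX
    have hpos := hg.integral_pos hu0
    have h1 : -(3 / 4) * ∫ x, ‖u x‖ ^ 2 ≤ ∫ x, V0 x * ‖u x‖ ^ 2 := by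
      rw [← integral_const_mul]
      have hle : ∀ x, (cosh x)⁻¹ ^ 2 ≤ 1 := fun x => by
        have h2 : (cosh x)⁻¹ ≤ 1 := inv_le_one_of_one_le₀ (one_le_cosh x)
        have h3 : 0 < (cosh x)⁻¹ := inv_pos.2 (cosh_pos x)
        exact pow_le_one₀ h3.le h2
      refine integral_mono (hg.sq_integrable.const_mul _) ?_ fun x => ?_
      · refine (hg.sq_integrable.const_mul (3 / 4)).mono'
          (V0_cont.mul (hg.continuous.norm.pow 2)).aestronglyMeasurable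
          (Filter.Eventually.of_forall fun x => ?_)
        rw [norm_mul, Real.norm_eq_abs, V0_abs, Real.norm_eq_abs, abs_of_nonneg (sq_nonneg _)]
        have := hle x
        nlinarith [sq_nonneg ‖u x‖]
      · have h2 := hle x
        have h3 : -(3 / 4) ≤ V0 x := by rw [V0]; nlinarith
        exact mul_le_mul_of_nonneg_right h3 (sq_nonneg _)
    have h2 : 0 ≤ ∫ x, ‖g x‖ ^ 2 := integral_nonneg fun x => sq_nonneg _
    by_contra hlt
    rw [not_le] at hlt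
    have := mul_lt_mul_of_pos_right hlt hpos
    linarith
  refine csInf_le hbdd ?_
  refine ⟨Submodule.span ℂ {W}, ?_, ?_⟩
  · have h0 : W ≠ 0 := by
      intro h
      have h1 := congrFun h 0
      have h2 := w_pos 0
      rw [W, Pi.zero_apply, Complex.ofReal_eq_zero] at h1
      linarith
    rw [finrank_span_singleton h0]
  · intro u hu
    obtain ⟨c, rfl⟩ := Submodule.mem_span_singleton.1 hu
    refine ⟨fun x => c * W' x, W_sobolev.const_mul c, ?_⟩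
    have e1 : ∀ x, ‖(c • W) x‖ ^ 2 = ‖c‖ ^ 2 * ‖W x‖ ^ 2 := by
      intro x
      rw [Pi.smul_apply, smul_eq_mul, norm_mul, mul_pow]
    have e2 : ∀ x, ‖c * W' x‖ ^ 2 = ‖c‖ ^ 2 * ‖W' x‖ ^ 2 := by
      intro x
      rw [norm_mul, mul_pow]
    have e3 : ∀ x, V0 x * (‖c‖ ^ 2 * ‖W x‖ ^ 2) = ‖c‖ ^ 2 * (V0 x * ‖W x‖ ^ 2) := fun x => by ring
    simp only [e1, e2, e3]
    rw [integral_const_mul, integral_const_mul, integral_const_mul, ← mul_add, W_form]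
    apply le_of_eq
    ring

/-- The optimal constant for `γ = 1`, `d = 1`: the smallest `L` with
`∑ₙ |Eₙ(-d²/dx² + V)| ≤ L ∫ V₋^(3/2)` for every real `V` in `L^(3/2)(ℝ)`. -/
theorem result : IsLeast {L : ℝ | ∀ V : ℝ → ℝ, MemLp V (3 / 2) → ∀ N : ℕ,
      ∑ n ∈ Finset.range N, max (-minMax V n) 0 ≤ L * ∫ x, (max (-V x) 0) ^ ((3 : ℝ) / 2)}
    (4 / (3 * √3 * π)) := by
  refine ⟨fun V hV N => minMax_bound V hV N, ?_⟩
  intro L hL
  have h1 := hL V0 V0_memLp 1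
  rw [Finset.sum_range_one, V0_integral] at h1
  have h2 : 1 / 4 ≤ max (-minMax V0 0) 0 :=
    le_trans (by linarith [minMax_V0]) (le_max_left _ _)
  have h3 : 1 / 4 ≤ L * (3 * √3 * π / 16) := h2.trans h1
  have hπ := pi_pos
  have h30 : 0 < √3 := Real.sqrt_pos.2 (by norm_num)
  rw [div_le_iff₀ (by positivity)]
  linarith

end Pool.Agent.Results.MP_4c716f_mp.GammaOneDimOne
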